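import Pool.Agent.Work.MP_e350e5_pl.Interface

/-! Block CEN (helper85). -/

set_option autoImplicit false

namespace Pool.PL

open Finset Pool.DTree
open scoped Classical

theorem p_CEN (h1 : S_LIN) (h2 : S_INJ) (h3 : S_CNT) : S_CEN := by
  intro n x
  set Q : Set (Finset (ℝ × ℝ) × EuclideanSpace ℝ (Fin 3)) :=
    {q | ∃ S r, Tch x S q.2 r ∧ q.1 = S.image (ln x)} with hQ
  have hq : ∀ q ∈ Q, ∃ S r, Tch x S q.2 r ∧ q.1 = S.image (ln x) := fun q hq => hq
  choose! S r hS using hq
  set g : Finset (ℝ × ℝ) × EuclideanSpace ℝ (Fin 3) → (Σ _ : Finset (ℝ × ℝ), ℕ) :=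
    fun q => ⟨q.1, (DD x (S q) (q.2 2)).card⟩ with hg
  set T : Finset (Σ _ : Finset (ℝ × ℝ), ℕ) :=
    (powersetCard 3 (lns x) ∪ powersetCard 4 (lns x)).sigma
      (fun L => Finset.Icc 1 (univ.filter (fun i => ln x i ∈ L)).card) with hT
  have hmaps : ∀ q ∈ Q, g q ∈ T := by
    intro q hq
    obtain ⟨a, b⟩ := hS q hq
    obtain ⟨c3, c4⟩ := h1 n x (S q) q.2 (r q) a
    rw [← b] at c3 c4
    have hsub : q.1 ⊆ lns x := by
      rw [b]
      exact Finset.image_subset_image (Finset.subset_univ _)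
    rw [hT, Finset.mem_sigma]
    refine ⟨?_, ?_⟩
    · rw [Finset.mem_union, Finset.mem_powersetCard, Finset.mem_powersetCard]
      have h34 : q.1.card = 3 ∨ q.1.card = 4 := by omega
      exact h34.imp (fun h => ⟨hsub, h⟩) (fun h => ⟨hsub, h⟩)
    · rw [Finset.mem_Icc]
      refine ⟨?_, ?_⟩
      · have hne : (S q).Nonempty := by
          rw [← Finset.card_pos, a.1]
          norm_num
        obtain ⟨i, hi⟩ := hne
        show 1 ≤ (DD x (S q) (q.2 2)).card
        refine Finset.card_pos.2 ⟨i, ?_⟩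
        refine Finset.mem_filter.2 ⟨Finset.mem_univ _, i, hi, rfl, ?_⟩
        have := le_abs_self (x (i, 2) - q.2 2)
        linarith
      · show (DD x (S q) (q.2 2)).card ≤ (univ.filter (fun i => ln x i ∈ q.1)).card
        refine Finset.card_le_card ?_
        intro m hm
        obtain ⟨-, i, hi, e, -⟩ := Finset.mem_filter.1 hm
        refine Finset.mem_filter.2 ⟨Finset.mem_univ _, ?_⟩
        show ln x m ∈ q.1
        rw [b, e]
        exact Finset.mem_image_of_mem _ hi
  have hinj : Set.InjOn g Q := by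
    intro q hq q' hq' e
    obtain ⟨a, b⟩ := hS q hq
    obtain ⟨a', b'⟩ := hS q' hq'
    have e1 : q.1 = q'.1 := congrArg Sigma.fst e
    have e2 : (DD x (S q) (q.2 2)).card = (DD x (S q') (q'.2 2)).card :=
      congrArg Sigma.snd e
    have e3 := h2 n x (S q) (S q') q.2 q'.2 (r q) (r q') a a' (by rw [← b, ← b', e1]) e2
    exact Prod.ext e1 e3
  have hcard : T.card ≤ n * (lns x).card.choose 3 := by
    rw [hT, Finset.card_sigma]
    have h4 := h3 n (ln x) (lns x) (fun i => Finset.mem_image_of_mem _ (Finset.mem_univ i))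
    refine le_trans (le_of_eq (Finset.sum_congr rfl fun L _ => ?_)) h4
    rw [Nat.card_Icc, Nat.add_sub_cancel]
  refine ⟨Set.Finite.of_injOn (fun q hq => hmaps q hq) hinj T.finite_toSet, ?_⟩
  have h5 := Set.ncard_le_ncard_of_injOn g (t := (T : Set _)) (fun q hq => hmaps q hq) hinj
    T.finite_toSet
  rw [Set.ncard_coe_finset] at h5
  exact h5.trans hcard

end Pool.PL
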