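import Pool.Agent.Work.MP_e350e5_pl.Interface

/-! Block CNT (helper48) -/

set_option autoImplicit false

namespace Pool.PL

open Finset Pool.DTree
open scoped Classical

theorem CNT_mem {α : Type} (K : Finset α) (a : α) (ha : a ∈ K) (j : ℕ) :
    ((powersetCard (j + 1) K).filter (fun L => a ∈ L)).card = (K.card - 1).choose j := by
  have h1 : (powersetCard (j + 1) K).filter (fun L => a ∈ L) =
      (powersetCard j (K.erase a)).image (insert a) := by
    ext L
    rw [mem_filter, mem_powersetCard, mem_image]
    constructor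
    · rintro ⟨⟨hsub, hcard⟩, haL⟩
      refine ⟨L.erase a, ?_, insert_erase haL⟩
      rw [mem_powersetCard]
      refine ⟨erase_subset_erase _ hsub, ?_⟩
      rw [card_erase_of_mem haL, hcard]; rfl
    · rintro ⟨M, hM, rfl⟩
      rw [mem_powersetCard] at hM
      have haM : a ∉ M := fun h => (Finset.notMem_erase a K) (hM.1 h)
      refine ⟨⟨?_, ?_⟩, mem_insert_self _ _⟩
      · exact insert_subset ha (hM.1.trans (erase_subset _ _))
      · rw [card_insert_of_notMem haM, hM.2]
  rw [h1, card_image_of_injOn, card_powersetCard, card_erase_of_mem ha]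
  intro M hM M' hM' he
  rw [mem_coe, mem_powersetCard] at hM hM'
  have haM : a ∉ M := fun h => (Finset.notMem_erase a K) (hM.1 h)
  have haM' : a ∉ M' := fun h => (Finset.notMem_erase a K) (hM'.1 h)
  have := congrArg (fun s => s.erase a) he
  simpa [erase_insert haM, erase_insert haM'] using this

theorem CNT_swap {n : ℕ} (f : Fin n → ℝ × ℝ) (Q : Finset (Finset (ℝ × ℝ))) :
    ∑ L ∈ Q, (univ.filter (fun i => f i ∈ L)).card =
      ∑ i : Fin n, (Q.filter (fun L => f i ∈ L)).card := by
  simp only [card_filter]
  exact sum_comm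

theorem p_CNT : S_CNT := by
  intro n f K hf
  rw [CNT_swap]
  have h : ∀ i : Fin n, ((powersetCard 3 K ∪ powersetCard 4 K).filter (fun L => f i ∈ L)).card ≤
      K.card.choose 3 := by
    intro i
    rw [filter_union]
    refine (card_union_le _ _).trans ?_
    have e2 : ((powersetCard 3 K).filter (fun L => f i ∈ L)).card = (K.card - 1).choose 2 := by
      convert CNT_mem K (f i) (hf i) 2
    have e3 : ((powersetCard 4 K).filter (fun L => f i ∈ L)).card = (K.card - 1).choose 3 := by
      convert CNT_mem K (f i) (hf i) 3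
    have hpos : 0 < K.card := card_pos.2 ⟨f i, hf i⟩
    obtain ⟨m, hm⟩ : ∃ m, K.card = m + 1 := ⟨K.card - 1, by omega⟩
    have e4 : K.card.choose 3 = (K.card - 1).choose 2 + (K.card - 1).choose 3 := by
      rw [hm, Nat.add_sub_cancel, Nat.choose_succ_succ' m 2]
    rw [e4]
    exact (Nat.add_le_add e2.le e3.le)
  calc ∑ i : Fin n, ((powersetCard 3 K ∪ powersetCard 4 K).filter (fun L => f i ∈ L)).card
      ≤ ∑ _i : Fin n, K.card.choose 3 := sum_le_sum fun i _ => h i
    _ = n * K.card.choose 3 := by simp

end Pool.PL
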