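import Pool.Agent.Work.MP_e350e5_pl.B_UNQ

/-! Block INJ (helper48) -/

set_option autoImplicit false

namespace Pool.PL

open Finset Pool.DTree
open scoped Classical

/-- on a line the touched points are nearest to the height of the centre -/
theorem INJ_near {n : ℕ} {x : Fin n × Fin 3 → ℝ} {S : Finset (Fin n)}
    {o : EuclideanSpace ℝ (Fin 3)} {r : ℝ} (ht : Tch x S o r) {i : Fin n} (hi : i ∈ S)
    (m : Fin n) (hm : ln x m = ln x i) : |x (i, 2) - o 2| ≤ |x (m, 2) - o 2| := by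
  have h1 := ht.2.2.2 m
  rw [← ht.2.2.1 i hi, dist_pt, dist_pt] at h1
  have h0 : x (m, 0) = x (i, 0) := congrArg Prod.fst hm
  have h01 : x (m, 1) = x (i, 1) := congrArg Prod.snd hm
  rw [h0, h01] at h1
  have h2 := (Real.sqrt_le_sqrt_iff (by positivity)).1 h1
  have h3 : (x (i, 2) - o 2) ^ 2 ≤ (x (m, 2) - o 2) ^ 2 := by linarith
  exact sq_le_sq.1 h3

/-- nearest points on a line of `S` are on the sphere -/
theorem INJ_on {n : ℕ} {x : Fin n × Fin 3 → ℝ} {S : Finset (Fin n)}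
    {o : EuclideanSpace ℝ (Fin 3)} {r : ℝ} (ht : Tch x S o r) {i : Fin n} (hi : i ∈ S)
    (m : Fin n) (hm : ln x m = ln x i) (hle : |x (m, 2) - o 2| ≤ |x (i, 2) - o 2|) :
    dist (pt x m) o = r := by
  rw [← ht.2.2.1 i hi, dist_pt, dist_pt]
  have h0 : x (m, 0) = x (i, 0) := congrArg Prod.fst hm
  have h01 : x (m, 1) = x (i, 1) := congrArg Prod.snd hm
  have h1 := INJ_near ht hi m hm
  have h2 : |x (m, 2) - o 2| = |x (i, 2) - o 2| := le_antisymm hle h1
  have h3 : (x (m, 2) - o 2) ^ 2 = (x (i, 2) - o 2) ^ 2 := by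
    rw [← sq_abs, h2, sq_abs]
  rw [h0, h01, h3]

theorem INJ_line {n : ℕ} {x : Fin n × Fin 3 → ℝ} {S S' : Finset (Fin n)}
    (hL : S.image (ln x) = S'.image (ln x)) {i : Fin n} (hi : i ∈ S) :
    ∃ i' ∈ S', ln x i' = ln x i := by
  have h1 : ln x i ∈ S'.image (ln x) := by
    rw [← hL]; exact Finset.mem_image_of_mem _ hi
  obtain ⟨i', hi', he⟩ := Finset.mem_image.1 h1
  exact ⟨i', hi', he⟩

theorem INJ_sub {n : ℕ} {x : Fin n × Fin 3 → ℝ} {S S' : Finset (Fin n)}
    {o o' : EuclideanSpace ℝ (Fin 3)} {r r' : ℝ} (ht : Tch x S o r) (ht' : Tch x S' o' r')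
    (hL : S.image (ln x) = S'.image (ln x)) (hh : o 2 ≤ o' 2) :
    DD x S (o 2) ⊆ DD x S' (o' 2) := by
  intro m hm
  unfold DD at hm ⊢
  rw [Finset.mem_filter] at hm ⊢
  obtain ⟨-, i, hi, hmi, hle⟩ := hm
  obtain ⟨i', hi', he⟩ := INJ_line hL hi
  refine ⟨Finset.mem_univ _, i', hi', hmi.trans he.symm, ?_⟩
  by_contra hcon
  push Not at hcon
  have h1 := INJ_near ht hi m hmi
  have h2 := INJ_near ht hi i' he
  have h3 := abs_nonneg (x (i', 2) - o' 2)
  have h4 := le_abs_self (x (i', 2) - o' 2)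
  have h5 := neg_abs_le (x (i', 2) - o' 2)
  rw [abs_of_nonneg (by linarith : 0 ≤ x (m, 2) - o 2)] at h1
  have h6 : |x (i', 2) - o 2| < x (m, 2) - o 2 := by
    rw [abs_lt]
    constructor <;> linarith
  linarith

theorem INJ_half {n : ℕ} {x : Fin n × Fin 3 → ℝ} {S S' : Finset (Fin n)}
    {o o' : EuclideanSpace ℝ (Fin 3)} {r r' : ℝ} (hUNQ : S_UNQ) (ht : Tch x S o r)
    (ht' : Tch x S' o' r') (hL : S.image (ln x) = S'.image (ln x)) (hh : o 2 ≤ o' 2)
    (hD : (DD x S (o 2)).card = (DD x S' (o' 2)).card) : o = o' := by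
  have hDD : DD x S (o 2) = DD x S' (o' 2) :=
    Finset.eq_of_subset_of_card_le (INJ_sub ht ht' hL hh) hD.ge
  refine hUNQ n x S' o o' r r' ht'.1 ht'.2.1 (fun i' hi' => ?_) ht'.2.2.1
  obtain ⟨i, hi, he⟩ := INJ_line hL.symm hi'
  -- the highest point of the line below
  obtain ⟨t, htmem, htmax⟩ := Finset.exists_max_image
    ((DD x S' (o' 2)).filter (fun m => ln x m = ln x i')) (fun m => x (m, 2)) ⟨i', by
      rw [Finset.mem_filter]
      refine ⟨?_, rfl⟩
      unfold DD
      rw [Finset.mem_filter]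
      refine ⟨Finset.mem_univ _, i', hi', rfl, ?_⟩
      have := le_abs_self (x (i', 2) - o' 2)
      linarith⟩
  rw [Finset.mem_filter] at htmem
  obtain ⟨htD, htl⟩ := htmem
  have htD2 : t ∈ DD x S (o 2) := by rw [hDD]; exact htD
  have mem' : ∀ m, ln x m = ln x i' → x (m, 2) ≤ o' 2 + |x (i', 2) - o' 2| →
      x (m, 2) ≤ x (t, 2) := by
    intro m hm hle
    apply htmax
    rw [Finset.mem_filter]
    refine ⟨?_, hm⟩
    unfold DD
    rw [Finset.mem_filter]
    exact ⟨Finset.mem_univ _, i', hi', hm, hle⟩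
  have mem : ∀ m, ln x m = ln x i' → x (m, 2) ≤ o 2 + |x (i, 2) - o 2| →
      x (m, 2) ≤ x (t, 2) := by
    intro m hm hle
    apply htmax
    rw [Finset.mem_filter, ← hDD]
    refine ⟨?_, hm⟩
    unfold DD
    rw [Finset.mem_filter]
    exact ⟨Finset.mem_univ _, i, hi, hm.trans he.symm, hle⟩
  have hti' : x (i', 2) ≤ x (t, 2) := mem' i' rfl (by
    have := le_abs_self (x (i', 2) - o' 2); linarith)
  have hti : x (i, 2) ≤ x (t, 2) := mem i he (by
    have := le_abs_self (x (i, 2) - o 2); linarith)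
  -- upper bounds for t
  have up : x (t, 2) ≤ o 2 + |x (i, 2) - o 2| := by
    unfold DD at htD2
    rw [Finset.mem_filter] at htD2
    obtain ⟨-, j, hj, hjl, hjle⟩ := htD2
    have h1 := INJ_near ht hj i (he.trans (htl.symm.trans hjl))
    linarith
  have up' : x (t, 2) ≤ o' 2 + |x (i', 2) - o' 2| := by
    unfold DD at htD
    rw [Finset.mem_filter] at htD
    obtain ⟨-, j, hj, hjl, hjle⟩ := htD
    have h1 := INJ_near ht' hj i' (htl.symm.trans hjl)
    linarith
  have nt := INJ_near ht hi t (htl.trans he.symm)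
  have nt' := INJ_near ht' hi' t htl
  -- t is nearest at the height of o
  have t1 : |x (t, 2) - o 2| ≤ |x (i, 2) - o 2| := by
    rw [abs_le]
    refine ⟨?_, by linarith⟩
    have := neg_abs_le (x (i, 2) - o 2)
    linarith
  refine INJ_on ht hi i' he.symm ?_
  refine le_trans ?_ t1
  -- i' is at least as near as t at the height of o
  rcases le_total (x (t, 2)) (o' 2) with hc | hc
  · -- t below o': then i' = t in height
    have h1 : |x (t, 2) - o' 2| = o' 2 - x (t, 2) := by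
      rw [abs_of_nonpos (by linarith)]; ring
    have h2 : |x (i', 2) - o' 2| = o' 2 - x (i', 2) := by
      rw [abs_of_nonpos (by linarith)]; ring
    have h3 : x (i', 2) = x (t, 2) := by
      rw [h1, h2] at nt'
      linarith
    rw [h3]
  · have h1 : |x (t, 2) - o' 2| = x (t, 2) - o' 2 := abs_of_nonneg (by linarith)
    rw [h1] at nt'
    have h2 := neg_abs_le (x (i', 2) - o' 2)
    have h3 : |x (t, 2) - o 2| = x (t, 2) - o 2 := abs_of_nonneg (by linarith)
    rw [h3, abs_le]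
    constructor <;> linarith

theorem p_INJ (hUNQ : S_UNQ) : S_INJ := by
  intro n x S S' o o' r r' ht ht' hL hD
  rcases le_total (o 2) (o' 2) with h | h
  · exact INJ_half hUNQ ht ht' hL h hD
  · exact (INJ_half hUNQ ht' ht hL.symm h hD.symm).symm

end Pool.PL
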