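import Pool.Agent.Work.MP_e350e5_pl.Interface

/-! Block MAIN (helper48) -/

set_option autoImplicit false

namespace Pool.PL

open Finset Pool.DTree
open scoped Classical

theorem MAIN_del {n : ℕ} (x : Fin n × Fin 3 → ℝ) (S : Finset (Fin n)) :
    IsDel x S ↔ ∃ o r, Tch x S o r := by
  unfold IsDel Tch
  constructor
  · rintro ⟨h1, h2, o, r, h3, h4⟩
    exact ⟨o, r, h1, h2, h3, h4⟩
  · rintro ⟨o, r, h1, h2, h3, h4⟩
    exact ⟨h1, h2, o, r, h3, h4⟩

theorem p_MAIN (h1 : S_CEN) (h2 : S_NB) : S_MAIN := by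
  intro n x hx
  obtain ⟨hfin, hcard⟩ := h1 n x
  obtain ⟨Q, hQ⟩ : ∃ Q, Q = {q : Finset (ℝ × ℝ) × EuclideanSpace ℝ (Fin 3) |
    ∃ S r, Tch x S q.2 r ∧ q.1 = S.image (ln x)} := ⟨_, rfl⟩
  rw [← hQ] at hfin hcard
  refine ⟨?_, ?_⟩
  · have hsub : {o | IsCen x o} ⊆ Prod.snd '' Q := by
      rintro o ⟨S, r, h⟩
      exact ⟨(S.image (ln x), o), by rw [hQ]; exact ⟨S, r, h, rfl⟩, rfl⟩
    exact ⟨(hfin.image _).subset hsub,
      (Set.ncard_le_ncard hsub (hfin.image _)).trans ((Set.ncard_image_le hfin).trans hcard)⟩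
  · have key : {S | IsDel x S}.ncard ≤ 70 * (n * (lns x).card.choose 3) := by
      have hsub : {S | IsDel x S} ⊆ ↑(hfin.toFinset.biUnion (fun q => 
          (powersetCard 4 (univ.filter (fun i => ln x i ∈ q.1 ∧
            dist (pt x i) q.2 = if h : ∃ S r, Tch x S q.2 r ∧ q.1 = S.image (ln x) then
              h.choose_spec.choose else 0))))) := by
        intro S hS
        obtain ⟨o, r, ht⟩ := (MAIN_del x S).1 hS
        rw [Finset.mem_coe, Finset.mem_biUnion]
        have hex : ∃ S' r', Tch x S' o r' ∧ S.image (ln x) = S'.image (ln x) := ⟨S, r, ht, rfl⟩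
        refine ⟨(S.image (ln x), o), ?_, ?_⟩
        · rw [Set.Finite.mem_toFinset, hQ]
          exact ⟨S, r, ht, rfl⟩
        · rw [mem_powersetCard]
          refine ⟨?_, ht.1⟩
          intro i hi
          rw [mem_filter]
          refine ⟨mem_univ _, mem_image_of_mem _ hi, ?_⟩
          simp only
          rw [dif_pos hex]
          have hspec := hex.choose_spec.choose_spec.1
          -- both radii are the smallest distance
          obtain ⟨S', hS'⟩ : ∃ S', S' = hex.choose := ⟨_, rfl⟩
          obtain ⟨r', hr'⟩ : ∃ r', r' = hex.choose_spec.choose := ⟨_, rfl⟩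
          rw [← hr', ← hS'] at hspec
          rw [← hr', ht.2.2.1 i hi]
          have hne : S'.Nonempty := by rw [← card_pos, hspec.1]; norm_num
          obtain ⟨j, hj⟩ := hne
          have e1 := ht.2.2.2 j
          rw [hspec.2.2.1 j hj] at e1
          have e2 := hspec.2.2.2 i
          rw [ht.2.2.1 i hi] at e2
          exact le_antisymm e1 e2
      refine (Set.ncard_le_ncard hsub (Finset.finite_toSet _)).trans ?_
      rw [Set.ncard_coe_finset]
      refine card_biUnion_le.trans ?_
      have hb : ∀ q ∈ hfin.toFinset, (powersetCard 4 (univ.filter (fun i => ln x i ∈ q.1 ∧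
            dist (pt x i) q.2 = if h : ∃ S r, Tch x S q.2 r ∧ q.1 = S.image (ln x) then
              h.choose_spec.choose else 0))).card ≤ 70 := by
        intro q hq
        rw [Set.Finite.mem_toFinset, hQ] at hq
        obtain ⟨S, r, ht, he⟩ := hq
        apply h2 n x q.1 q.2 _ hx
        rw [he]
        exact card_image_le.trans ht.1.le
      refine (sum_le_sum hb).trans ?_
      rw [sum_const, smul_eq_mul, mul_comm]
      refine Nat.mul_le_mul_left _ ?_
      rw [← Set.ncard_eq_toFinset_card Q hfin]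
      exact hcard
    refine ⟨key, fun T hT => ?_⟩
    have hsub : (T : Set (Finset (Fin n))) ⊆ {S | IsDel x S} := fun S hS => hT.del S hS
    have := Set.ncard_le_ncard hsub (Set.toFinite _)
    rw [Set.ncard_coe_finset] at this
    exact this.trans key

end Pool.PL
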