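import Pool.Agent.Work.MP_e350e5_pl.Interface

/-! Block NB (helper85). -/

set_option autoImplicit false

namespace Pool.PL

open Finset Pool.DTree
open scoped Classical

theorem NB_dsq {n : ℕ} (x : Fin n × Fin 3 → ℝ) (i : Fin n) (o : EuclideanSpace ℝ (Fin 3)) :
    dist (pt x i) o ^ 2 = (x (i, 0) - o 0) ^ 2 + (x (i, 1) - o 1) ^ 2 + (x (i, 2) - o 2) ^ 2 := by
  rw [EuclideanSpace.dist_eq, Real.sq_sqrt (by positivity), Fin.sum_univ_three, Real.dist_eq,
    Real.dist_eq, Real.dist_eq, sq_abs, sq_abs, sq_abs]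
  rfl

theorem NB_inj {n : ℕ} (x : Fin n × Fin 3 → ℝ) (o : EuclideanSpace ℝ (Fin 3)) (r : ℝ)
    (hinj : Function.Injective (pt x)) (i j : Fin n) (hi : dist (pt x i) o = r)
    (hj : dist (pt x j) o = r) (h1 : ln x i = ln x j)
    (h2 : o 2 ≤ x (i, 2) ↔ o 2 ≤ x (j, 2)) : i = j := by
  have e0 : x (i, 0) = x (j, 0) := congrArg Prod.fst h1
  have e1 : x (i, 1) = x (j, 1) := congrArg Prod.snd h1
  have h3 := NB_dsq x i o
  have h4 := NB_dsq x j o
  rw [hi, e0, e1] at h3
  rw [hj] at h4
  have h5 : (x (i, 2) - o 2) ^ 2 = (x (j, 2) - o 2) ^ 2 := by linarith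
  have e2 : x (i, 2) = x (j, 2) := by
    rcases sq_eq_sq_iff_eq_or_eq_neg.1 h5 with h6 | h6
    · linarith
    · by_cases h7 : o 2 ≤ x (i, 2)
      · have h8 := h2.1 h7
        linarith
      · have h8 : ¬ o 2 ≤ x (j, 2) := fun h => h7 (h2.2 h)
        push Not at h7 h8
        linarith
  apply hinj
  unfold pt
  congr 1
  funext k
  fin_cases k
  · exact e0
  · exact e1
  · exact e2

theorem p_NB : S_NB := by
  intro n x L o r hinj hL
  rw [Finset.card_powersetCard]
  have h8 : (univ.filter (fun i => ln x i ∈ L ∧ dist (pt x i) o = r)).card ≤ 8 := by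
    have h1 : (univ.filter (fun i => ln x i ∈ L ∧ dist (pt x i) o = r)).card ≤
        (L ×ˢ (univ : Finset Bool)).card := by
      refine Finset.card_le_card_of_injOn (fun i => (ln x i, decide (o 2 ≤ x (i, 2)))) ?_ ?_
      · intro i hi
        have hi2 := (Finset.mem_filter.1 hi).2
        exact Finset.mem_product.2 ⟨hi2.1, Finset.mem_univ _⟩
      · intro i hi j hj hij
        have hi2 := (Finset.mem_filter.1 hi).2
        have hj2 := (Finset.mem_filter.1 hj).2
        have e1 : ln x i = ln x j := congrArg Prod.fst hij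
        have e2 : decide (o 2 ≤ x (i, 2)) = decide (o 2 ≤ x (j, 2)) := congrArg Prod.snd hij
        exact NB_inj x o r hinj i j hi2.2 hj2.2 e1 (decide_eq_decide.1 e2)
    rw [Finset.card_product, Finset.card_univ, Fintype.card_bool] at h1
    omega
  calc _ ≤ Nat.choose 8 4 := Nat.choose_le_choose 4 h8
    _ = 70 := by decide

end Pool.PL
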