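import Pool.Agent.Work.MP_e350e5_pl.Interface

/-! Block CNT, second copy (helper85). -/

set_option autoImplicit false

namespace Pool.PL

open Finset Pool.DTree
open scoped Classical

theorem CNTx_one (K : Finset (ℝ × ℝ)) (a : ℝ × ℝ) (ha : a ∈ K) (j : ℕ) :
    ((powersetCard (j + 1) K).filter fun L => a ∈ L).card ≤ (K.card - 1).choose j := by
  rw [← Finset.card_erase_of_mem ha, ← Finset.card_powersetCard]
  refine Finset.card_le_card_of_injOn (fun L => L.erase a) ?_ ?_
  · intro L hL
    obtain ⟨hL1, hL2⟩ := Finset.mem_filter.1 hL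
    obtain ⟨hL3, hL4⟩ := Finset.mem_powersetCard.1 hL1
    refine Finset.mem_powersetCard.2 ⟨Finset.erase_subset_erase a hL3, ?_⟩
    show (L.erase a).card = j
    rw [Finset.card_erase_of_mem hL2, hL4, Nat.add_sub_cancel]
  · intro L hL L' hL' e
    have h1 := (Finset.mem_filter.1 hL).2
    have h2 := (Finset.mem_filter.1 hL').2
    have e' : L.erase a = L'.erase a := e
    rw [← Finset.insert_erase h1, e', Finset.insert_erase h2]

theorem p_CNTx : S_CNT := by
  intro n f K hf
  have h1 : ∀ L : Finset (ℝ × ℝ), (univ.filter (fun i => f i ∈ L)).card =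
      ∑ i : Fin n, if f i ∈ L then 1 else 0 := fun L => Finset.card_filter _ _
  rw [Finset.sum_congr rfl fun L _ => h1 L, Finset.sum_comm]
  calc _ ≤ ∑ _i : Fin n, K.card.choose 3 := by
        refine Finset.sum_le_sum fun i _ => ?_
        rw [← Finset.card_filter, Finset.filter_union]
        refine (Finset.card_union_le _ _).trans ?_
        have h3 := CNTx_one K (f i) (hf i) 2
        have h4 := CNTx_one K (f i) (hf i) 3
        have hk : 1 ≤ K.card := Finset.card_pos.2 ⟨f i, hf i⟩
        obtain ⟨k, hk2⟩ : ∃ k, K.card = k + 1 := ⟨K.card - 1, by omega⟩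
        rw [hk2, Nat.add_sub_cancel] at h3 h4
        rw [hk2, Nat.choose_succ_succ]
        exact add_le_add h3 h4
    _ = n * K.card.choose 3 := by
        rw [Finset.sum_const, Finset.card_univ, Fintype.card_fin, smul_eq_mul]

end Pool.PL
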