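import Pool.Agent.Work.MP_e350e5_pl.Interface

/-! Block MAIN, second copy (helper85). -/

set_option autoImplicit false

namespace Pool.PL

open Finset Pool.DTree
open scoped Classical

theorem MAINx_r {n : ℕ} {x : Fin n × Fin 3 → ℝ} {S S' : Finset (Fin n)}
    {o : EuclideanSpace ℝ (Fin 3)} {r r' : ℝ} (h : Tch x S o r) (h' : Tch x S' o r') : r ≤ r' := by
  have hne : S'.Nonempty := by
    rw [← Finset.card_pos, h'.1]
    norm_num
  obtain ⟨i, hi⟩ := hne
  rw [← h'.2.2.1 i hi]
  exact h.2.2.2 i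

theorem p_MAINx (h1 : S_CEN) (h2 : S_NB) : S_MAIN := by
  intro n x hinj
  obtain ⟨hfin, hcard⟩ := h1 n x
  set Q : Set (Finset (ℝ × ℝ) × EuclideanSpace ℝ (Fin 3)) :=
    {q | ∃ S r, Tch x S q.2 r ∧ q.1 = S.image (ln x)} with hQ
  set B := n * (lns x).card.choose 3 with hB
  have hcen : {o | IsCen x o} = Prod.snd '' Q := by
    ext o
    constructor
    · rintro ⟨S, r, h⟩
      exact ⟨(S.image (ln x), o), ⟨S, r, h, rfl⟩, rfl⟩
    · rintro ⟨q, ⟨S, r, h, -⟩, rfl⟩
      exact ⟨S, r, h⟩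
  have hq : ∀ q ∈ Q, ∃ S r, Tch x S q.2 r ∧ q.1 = S.image (ln x) := fun q hq => hq
  choose! S r hS using hq
  have hdel : ∀ T : Finset (Finset (Fin n)), (∀ D ∈ T, IsDel x D) → T.card ≤ 70 * B := by
    intro T hT
    have hsub : T ⊆ hfin.toFinset.biUnion fun q =>
        powersetCard 4 (univ.filter (fun i => ln x i ∈ q.1 ∧ dist (pt x i) q.2 = r q)) := by
      intro D hD
      obtain ⟨d1, d2, o, ρ, d3, d4⟩ := hT D hD
      have hTch : Tch x D o ρ := ⟨d1, d2, d3, d4⟩
      have hmem : (D.image (ln x), o) ∈ Q := ⟨D, ρ, hTch, rfl⟩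
      have hr : ρ = r (D.image (ln x), o) :=
        le_antisymm (MAINx_r hTch (hS _ hmem).1) (MAINx_r (hS _ hmem).1 hTch)
      rw [Finset.mem_biUnion]
      refine ⟨(D.image (ln x), o), hfin.mem_toFinset.2 hmem, ?_⟩
      rw [Finset.mem_powersetCard]
      refine ⟨?_, d1⟩
      intro i hi
      exact Finset.mem_filter.2 ⟨Finset.mem_univ _, Finset.mem_image_of_mem _ hi,
        (d3 i hi).trans hr⟩
    refine (Finset.card_le_card hsub).trans ?_
    refine (Finset.card_biUnion_le_card_mul _ _ 70 ?_).trans ?_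
    · intro q hq
      have hq' := hS q (hfin.mem_toFinset.1 hq)
      refine h2 n x q.1 q.2 (r q) hinj ?_
      rw [hq'.2]
      exact Finset.card_image_le.trans hq'.1.1.le
    · rw [mul_comm, ← Set.ncard_eq_toFinset_card Q hfin]
      exact Nat.mul_le_mul_left 70 hcard
  refine ⟨⟨?_, ?_⟩, ?_, ?_⟩
  · rw [hcen]
    exact hfin.image _
  · rw [hcen]
    exact (Set.ncard_image_le hfin).trans hcard
  · have h3 := hdel (univ.filter fun D => IsDel x D) (fun D hD => (Finset.mem_filter.1 hD).2)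
    have h4 : {S | IsDel x S} = ((univ.filter fun D => IsDel x D : Finset (Finset (Fin n))) :
        Set (Finset (Fin n))) := by
      ext D
      simp
    rw [h4, Set.ncard_coe_finset]
    exact h3
  · intro T hT
    exact hdel T fun D hD => hT.del D hD

end Pool.PL
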