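import Pool.Agent.Work.MP_e350e5_pl.Interface

/-! Blocks UNQ, LIN (helper48) -/

set_option autoImplicit false

namespace Pool.PL

open Finset Pool.DTree
open scoped Classical

theorem p_UNQ : S_UNQ := by
  intro n x S o o' r r' hc hind h h'
  haveI : Nonempty S := by
    have : S.Nonempty := by
      rw [← Finset.card_pos, hc]; norm_num
    exact ⟨⟨this.choose, this.choose_spec⟩⟩
  have htop : affineSpan ℝ (Set.range fun i : S => pt x i) = ⊤ := by
    rw [hind.affineSpan_eq_top_iff_card_eq_finrank_add_one, finrank_euclideanSpace_fin]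
    simp [hc]
  obtain ⟨cs, -, huniq⟩ := hind.existsUnique_dist_eq
  have h1 := huniq ⟨o, r⟩ (by
    refine ⟨by rw [htop]; exact AffineSubspace.mem_top _ _ _, ?_⟩
    rintro _ ⟨i, rfl⟩
    exact Metric.mem_sphere.2 (h i.1 i.2))
  have h2 := huniq ⟨o', r'⟩ (by
    refine ⟨by rw [htop]; exact AffineSubspace.mem_top _ _ _, ?_⟩
    rintro _ ⟨i, rfl⟩
    exact Metric.mem_sphere.2 (h' i.1 i.2))
  have h3 := h1.trans h2.symm
  exact congrArg EuclideanGeometry.Sphere.center h3

/-- distances in coordinates -/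
theorem dist_pt {n : ℕ} (x : Fin n × Fin 3 → ℝ) (i : Fin n) (o : EuclideanSpace ℝ (Fin 3)) :
    dist (pt x i) o = Real.sqrt ((x (i, 0) - o 0) ^ 2 + (x (i, 1) - o 1) ^ 2 +
      (x (i, 2) - o 2) ^ 2) := by
  rw [EuclideanSpace.dist_eq, Fin.sum_univ_three]
  simp only [Real.dist_eq, sq_abs]
  rfl

theorem p_LIN (hUNQ : S_UNQ) : S_LIN := by
  intro n x S o r ht
  obtain ⟨hc, hind, hr, -⟩ := ht
  refine ⟨?_, (Finset.card_image_le).trans hc.le⟩
  by_contra hlt
  push Not at hlt
  obtain ⟨a, b, hab, hsub⟩ : ∃ a b : ℝ × ℝ, a ≠ b ∧ S.image (ln x) ⊆ {a, b} := by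
    have hpos : 0 < (S.image (ln x)).card := by
      rw [Finset.card_pos, Finset.image_nonempty, ← Finset.card_pos, hc]; norm_num
    have h12 : (S.image (ln x)).card = 1 ∨ (S.image (ln x)).card = 2 := by omega
    rcases h12 with h1 | h2
    · obtain ⟨a, ha⟩ := Finset.card_eq_one.1 h1
      refine ⟨a, (a.1 + 1, a.2), ?_, ?_⟩
      · intro h
        have := congrArg Prod.fst h
        simp at this
      · rw [ha]
        intro c hc'
        rw [Finset.mem_singleton] at hc'
        simp [hc']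
    · obtain ⟨a, b, hab, he⟩ := Finset.card_eq_two.1 h2
      exact ⟨a, b, hab, he.le⟩
  obtain ⟨o', ho'⟩ : ∃ o' : EuclideanSpace ℝ (Fin 3), o' =
      WithLp.toLp 2 ![o 0 + (b.2 - a.2), o 1 + (a.1 - b.1), o 2] := ⟨_, rfl⟩
  have e0 : o' 0 = o 0 + (b.2 - a.2) := by rw [ho']; rfl
  have e1 : o' 1 = o 1 + (a.1 - b.1) := by rw [ho']; rfl
  have e2 : o' 2 = o 2 := by rw [ho']; rfl
  obtain ⟨i0, hi0⟩ : ∃ i0, i0 ∈ S := by
    have : S.Nonempty := by rw [← Finset.card_pos, hc]; norm_num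
    exact this
  have hsq : ∀ i ∈ S, (x (i, 0) - o 0) ^ 2 + (x (i, 1) - o 1) ^ 2 + (x (i, 2) - o 2) ^ 2 =
      (x (i0, 0) - o 0) ^ 2 + (x (i0, 1) - o 1) ^ 2 + (x (i0, 2) - o 2) ^ 2 := by
    intro i hi
    have h1 := (hr i hi).trans (hr i0 hi0).symm
    rw [dist_pt, dist_pt] at h1
    have h2 := congrArg (fun t => t ^ 2) h1
    simp only at h2
    rwa [Real.sq_sqrt (by positivity), Real.sq_sqrt (by positivity)] at h2
  have hlin : ∀ i ∈ S, (b.2 - a.2) * x (i, 0) + (a.1 - b.1) * x (i, 1) =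
      b.2 * a.1 - b.1 * a.2 := by
    intro i hi
    have h1 := hsub (Finset.mem_image_of_mem (ln x) hi)
    rw [Finset.mem_insert, Finset.mem_singleton] at h1
    rcases h1 with h | h
    · have h0 : x (i, 0) = a.1 := congrArg Prod.fst h
      have h1 : x (i, 1) = a.2 := congrArg Prod.snd h
      rw [h0, h1]; ring
    · have h0 : x (i, 0) = b.1 := congrArg Prod.fst h
      have h1 : x (i, 1) = b.2 := congrArg Prod.snd h
      rw [h0, h1]; ring
  have hoo : o = o' := by
    refine hUNQ n x S o o' r (dist (pt x i0) o') hc hind hr (fun i hi => ?_)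
    rw [dist_pt, dist_pt, e0, e1, e2]
    congr 1
    have h1 := hsq i hi
    have h2 := hlin i hi
    have h3 := hlin i0 hi0
    nlinarith [h1, h2, h3]
  have f0 : b.2 - a.2 = 0 := by
    have := congrArg (fun v : EuclideanSpace ℝ (Fin 3) => v 0) hoo
    simp only [e0] at this
    linarith
  have f1 : a.1 - b.1 = 0 := by
    have := congrArg (fun v : EuclideanSpace ℝ (Fin 3) => v 1) hoo
    simp only [e1] at this
    linarith
  exact hab (Prod.ext (by linarith) (by linarith))

end Pool.PL
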