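import Pool.Agent.Work.MP_e350e5_lc.Interface2

/-!
# Delaunay triangulations of points on parallel lines (MP_e350e5_lc), helper48
-/

set_option autoImplicit false

namespace Pool.PL

open Finset Pool.DTree
open scoped Classical

/-- the vertical line of the `i`-th point -/
def ln {n : ℕ} (x : Fin n × Fin 3 → ℝ) (i : Fin n) : ℝ × ℝ := (x (i, 0), x (i, 1))

/-- the vertical lines which contain points -/
noncomputable def lns {n : ℕ} (x : Fin n × Fin 3 → ℝ) : Finset (ℝ × ℝ) := univ.image (ln x)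

/-- `S` consists of four affinely independent points on the sphere with centre `o` and radius `r`, no point is inside -/
def Tch {n : ℕ} (x : Fin n × Fin 3 → ℝ) (S : Finset (Fin n)) (o : EuclideanSpace ℝ (Fin 3)) (r : ℝ) : Prop :=
  S.card = 4 ∧ AffineIndependent ℝ (fun i : S => pt x i) ∧ (∀ i ∈ S, dist (pt x i) o = r) ∧
    ∀ m, r ≤ dist (pt x m) o

/-- `o` is the centre of a Delaunay sphere, i.e. a vertex of the Voronoi diagram -/
def IsCen {n : ℕ} (x : Fin n × Fin 3 → ℝ) (o : EuclideanSpace ℝ (Fin 3)) : Prop := ∃ S r, Tch x S o r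

/-- the points on the lines of `S` which are not above the highest touched ones -/
noncomputable def DD {n : ℕ} (x : Fin n × Fin 3 → ℝ) (S : Finset (Fin n)) (h : ℝ) : Finset (Fin n) :=
  univ.filter (fun m => ∃ i ∈ S, ln x m = ln x i ∧ x (m, 2) ≤ h + |x (i, 2) - h|)

/-- UNQ: the centre is determined by four affinely independent points. -/
def S_UNQ : Prop := ∀ (n : ℕ) (x : Fin n × Fin 3 → ℝ) (S : Finset (Fin n)) (o o' : EuclideanSpace ℝ (Fin 3))
  (r r' : ℝ), S.card = 4 → AffineIndependent ℝ (fun i : S => pt x i) → (∀ i ∈ S, dist (pt x i) o = r) →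
  (∀ i ∈ S, dist (pt x i) o' = r') → o = o'

/-- LIN (uses UNQ): four affinely independent points are on at least three vertical lines. -/
def S_LIN : Prop := ∀ (n : ℕ) (x : Fin n × Fin 3 → ℝ) (S : Finset (Fin n)) (o : EuclideanSpace ℝ (Fin 3)) (r : ℝ),
  Tch x S o r → 3 ≤ (S.image (ln x)).card ∧ (S.image (ln x)).card ≤ 4

/-- INJ (uses UNQ): a sphere is determined by the lines and the number of points below. -/
def S_INJ : Prop := ∀ (n : ℕ) (x : Fin n × Fin 3 → ℝ) (S S' : Finset (Fin n)) (o o' : EuclideanSpace ℝ (Fin 3))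
  (r r' : ℝ), Tch x S o r → Tch x S' o' r' → S.image (ln x) = S'.image (ln x) →
  (DD x S (o 2)).card = (DD x S' (o' 2)).card → o = o'

/-- CNT: double counting, `(k-1).choose 2 + (k-1).choose 3 = k.choose 3`. (Exchange the sums; the number of
`L ∈ powersetCard j K` with `a ∈ L` is `(k-1).choose (j-1)`; `Finset.powersetCard` of `insert a K'`.) -/
def S_CNT : Prop := ∀ (n : ℕ) (f : Fin n → ℝ × ℝ) (K : Finset (ℝ × ℝ)), (∀ i, f i ∈ K) →
  ∑ L ∈ powersetCard 3 K ∪ powersetCard 4 K, (univ.filter (fun i => f i ∈ L)).card ≤ n * K.card.choose 3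

/-- NB: on at most four lines a sphere has at most `8` of the points, so it contains at most `70` sets of four.
(`x (i, 2) = o 2 ± c` for the points of one line; the map `i ↦ (ln x i, decide (o 2 ≤ x (i, 2)))` is injective on
them.) -/
def S_NB : Prop := ∀ (n : ℕ) (x : Fin n × Fin 3 → ℝ) (L : Finset (ℝ × ℝ)) (o : EuclideanSpace ℝ (Fin 3)) (r : ℝ),
  Function.Injective (pt x) → L.card ≤ 4 →
  (powersetCard 4 (univ.filter (fun i => ln x i ∈ L ∧ dist (pt x i) o = r))).card ≤ 70

/-- CEN (uses LIN, INJ, CNT): the number of pairs (sphere, set of touched lines of four independent points), so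
of spheres. -/
def S_CEN : Prop := ∀ (n : ℕ) (x : Fin n × Fin 3 → ℝ),
  {q : Finset (ℝ × ℝ) × EuclideanSpace ℝ (Fin 3) | ∃ S r, Tch x S q.2 r ∧ q.1 = S.image (ln x)}.Finite ∧
  {q : Finset (ℝ × ℝ) × EuclideanSpace ℝ (Fin 3) | ∃ S r, Tch x S q.2 r ∧ q.1 = S.image (ln x)}.ncard ≤
    n * (lns x).card.choose 3

/-- MAIN (uses CEN, NB). -/
def S_MAIN : Prop := ∀ (n : ℕ) (x : Fin n × Fin 3 → ℝ), Function.Injective (pt x) →
  ({o | IsCen x o}.Finite ∧ {o | IsCen x o}.ncard ≤ n * (lns x).card.choose 3) ∧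
  {S | IsDel x S}.ncard ≤ 70 * (n * (lns x).card.choose 3) ∧
  ∀ T : Finset (Finset (Fin n)), IsDT x T → T.card ≤ 70 * (n * (lns x).card.choose 3)

end Pool.PL
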